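import Pool.Agent.Q80.KT.Stm

/-! KT-DET: the balls are determined by the explored pairs. -/

set_option autoImplicit false

open Finset MeasureTheory Filter Topology
open scoped Classical ENNReal NNReal

namespace Pool.Agent.Q164.KT.DET

open Pool.Agent.Q80.KT Pool.Agent.Q287.SR

lemma mem_ball {n : ℕ} (G : SimpleGraph (Fin n)) (v w : Fin n) (r : ℕ) :
    w ∈ ball G v r ↔ G.Reachable v w ∧ G.dist v w ≤ r := by
  simp [ball]

lemma ball_zero {n : ℕ} (G : SimpleGraph (Fin n)) (v w : Fin n) : w ∈ ball G v 0 ↔ w = v := by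
  rw [mem_ball]
  constructor
  · rintro ⟨h1, h2⟩
    exact ((h1.dist_eq_zero_iff).1 (Nat.le_zero.1 h2)).symm
  · rintro rfl
    exact ⟨SimpleGraph.Reachable.refl _, by simp⟩

lemma ball_succ {n : ℕ} (G : SimpleGraph (Fin n)) (v w : Fin n) (i : ℕ) :
    w ∈ ball G v (i + 1) ↔ w ∈ ball G v i ∨ ∃ a ∈ ball G v i, G.Adj a w := by
  constructor
  · intro h
    rw [mem_ball] at h
    obtain ⟨hr, hd⟩ := h
    by_cases hle : G.dist v w ≤ i
    · exact Or.inl ((mem_ball G v w i).2 ⟨hr, hle⟩)
    · right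
      obtain ⟨p, hp⟩ := hr.symm.exists_walk_length_eq_dist
      cases p with
      | nil =>
        exfalso
        apply hle
        rw [SimpleGraph.dist_self]
        exact Nat.zero_le _
      | @cons _ a _ hadj q =>
        refine ⟨a, ?_, hadj.symm⟩
        rw [mem_ball]
        refine ⟨q.reachable.symm, ?_⟩
        rw [SimpleGraph.dist_comm]
        have h1 : G.dist a v ≤ q.length := SimpleGraph.dist_le q
        rw [SimpleGraph.Walk.length_cons, SimpleGraph.dist_comm] at hp
        omega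
  · rintro (h | ⟨a, ha, hadj⟩)
    · rw [mem_ball] at h ⊢
      exact ⟨h.1, h.2.trans (Nat.le_succ i)⟩
    · rw [mem_ball] at ha ⊢
      refine ⟨ha.1.trans hadj.reachable, ?_⟩
      obtain ⟨p, hp⟩ := ha.1.exists_walk_length_eq_dist
      have h1 := SimpleGraph.dist_le (p.append (SimpleGraph.Walk.cons hadj .nil))
      rw [SimpleGraph.Walk.length_append, SimpleGraph.Walk.length_cons,
        SimpleGraph.Walk.length_nil, hp] at h1
      omega

lemma ball_mono {n : ℕ} (G : SimpleGraph (Fin n)) (v w : Fin n) (i j : ℕ) (hij : i ≤ j)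
    (h : w ∈ ball G v i) : w ∈ ball G v j := by
  rw [mem_ball] at h ⊢
  exact ⟨h.1, h.2.trans hij⟩

theorem t_DET : S_DET := by
  intro n G G' v r hr hD
  have hadj : ∀ a ∈ ball G v (r - 1), ∀ b, (G.Adj a b ↔ G'.Adj a b) := by
    intro a ha b
    have h1 := hD s(a, b) (Or.inr ⟨a, Sym2.mem_mk_left a b, ha⟩)
    rwa [SimpleGraph.mem_edgeSet, SimpleGraph.mem_edgeSet] at h1
  constructor
  · intro i
    induction i with
    | zero =>
      intro _
      ext w
      rw [ball_zero, ball_zero]
    | succ i ih =>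
      intro hi
      have h0 := ih (by omega)
      ext w
      rw [ball_succ, ball_succ, h0]
      have h2 : ∀ a ∈ ball G v i, (G'.Adj a w ↔ G.Adj a w) := fun a ha =>
        (hadj a (ball_mono G v a i (r - 1) (by omega) ha) w).symm
      constructor
      · rintro (h | ⟨a, ha, h⟩)
        · exact Or.inl h
        · exact Or.inr ⟨a, ha, (h2 a ha).1 h⟩
      · rintro (h | ⟨a, ha, h⟩)
        · exact Or.inl h
        · exact Or.inr ⟨a, ha, (h2 a ha).2 h⟩
  · intro a ha b hab
    have h1 := (ball_succ G v b (r - 1)).2 (Or.inr ⟨a, ha, hab⟩)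
    rwa [Nat.sub_add_cancel hr] at h1

end Pool.Agent.Q164.KT.DET
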