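import Pool.Agent.Q234.KG.Stm3

/-!
# The one site interaction on boxes of different sides
-/

set_option autoImplicit false

open scoped BigOperators
open Finset Pool.Agent.TH235.PP Pool.Agent.Q234.KG

namespace Pool.Agent.Q164.KT.SiteN

theorem cast_inj' {N L : ℕ} (hNL : N ≤ L) (i j : Fin N) (h : (((i : ℕ) : ℕ) : ZMod L) = ((j : ℕ) : ZMod L)) :
    i = j := by
  rw [ZMod.natCast_eq_natCast_iff'] at h
  rw [Nat.mod_eq_of_lt (i.2.trans_le hNL), Nat.mod_eq_of_lt (j.2.trans_le hNL)] at h
  exact Fin.ext h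

theorem sh_inj {N L : ℕ} (hNL : N ≤ L) (u : Site L) {x y : Fin N × Fin N} (h : sh u x = sh u y) : x = y := by
  unfold sh at h
  rw [Prod.mk.injEq, add_right_inj, add_right_inj] at h
  exact Prod.ext (cast_inj' hNL _ _ h.1) (cast_inj' hNL _ _ h.2)

theorem term_site {d N L : ℕ} [NeZero L] (a : Matrix (Fin d) (Fin d) ℂ) (hN : 1 ≤ N) (hNL : N ≤ L) (u : Site L)
    (s t : Site L → Fin d) [Decidable (∀ v, v ≠ u → s v = t v)] :
    term (site1 a N : BoxOp d N) u s t = if (∀ v, v ≠ u → s v = t v) then a (s u) (t u) else 0 := by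
  classical
  let o : Fin N × Fin N := (⟨0, hN⟩, ⟨0, hN⟩)
  have ho : sh u o = u := by
    unfold sh
    simp [o]
  have hiff : ∀ x : Fin N × Fin N, ((x.1 : ℕ) = 0 ∧ (x.2 : ℕ) = 0) ↔ x = o := by
    intro x
    constructor
    · rintro ⟨h1, h2⟩
      exact Prod.ext (Fin.ext h1) (Fin.ext h2)
    · rintro rfl
      exact ⟨rfl, rfl⟩
  unfold term
  by_cases hC : ∀ v, (∀ x : Fin N × Fin N, sh u x ≠ v) → s v = t v
  · rw [if_pos hC]
    unfold site1
    by_cases hA : ∀ v, v ≠ u → s v = t v
    · rw [if_pos hA, Finset.prod_eq_single o]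
      · rw [if_pos ((hiff o).2 rfl)]
        change a (s (sh u o)) (t (sh u o)) = a (s u) (t u)
        rw [ho]
      · intro x _ hx
        rw [if_neg (fun h => hx ((hiff x).1 h)), if_pos]
        apply hA
        intro e
        apply hx
        apply sh_inj hNL u
        rw [e, ho]
      · intro h
        exact absurd (mem_univ _) h
    · rw [if_neg hA]
      push Not at hA
      obtain ⟨v, hv, hst⟩ := hA
      have h1 : ∃ x : Fin N × Fin N, sh u x = v := by
        by_contra hcon
        push Not at hcon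
        exact hst (hC v hcon)
      obtain ⟨x, rfl⟩ := h1
      apply Finset.prod_eq_zero (mem_univ x)
      rw [if_neg, if_neg hst]
      intro h
      apply hv
      rw [(hiff x).1 h, ho]
  · rw [if_neg hC, if_neg]
    intro hA
    apply hC
    intro v hv
    apply hA
    intro e
    apply hv o
    rw [ho, e]

theorem main : SiteN := by
  classical
  intro d N L _ a hN hNL
  unfold ham
  apply Finset.sum_congr rfl
  intro u _
  ext s t
  rw [term_site a hN hNL, term_site a le_rfl (hN.trans hNL)]

end Pool.Agent.Q164.KT.SiteN
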